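import Pool.Agent.Lib.H25K.Rad

set_option autoImplicit false

namespace Pool.Agent.Results.MP_e52bd2_pr.RandomSigns

open MeasureTheory ProbabilityTheory

/-- The sharp Berry-Esseen bound for Rademacher sums. On any probability space `(Ω, P)` let `X i` (`i` in a finite
index type) be independent random variables with `P(X i = 1) = P(X i = -1) = 1/2`, and let `a i` be real weights
with `0 ≤ a i ≤ a i₀` and `∑ a i ^ 2 = 1`. Then for every real `x` both `P(∑ a i * X i ≤ x)` and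
`P(∑ a i * X i < x)` differ from `P(Z ≤ x)` by at most `P(0 < Z < a i₀)`, where `Z` is standard Gaussian. -/
theorem result {Ω ι : Type*} [MeasurableSpace Ω] (P : Measure Ω) [IsProbabilityMeasure P] [Fintype ι]
    (X : ι → Ω → ℝ) (hX : ∀ i, Measurable (X i)) (hindep : iIndepFun X P)
    (hplus : ∀ i, P {ω | X i ω = 1} = 1 / 2) (hminus : ∀ i, P {ω | X i ω = -1} = 1 / 2)
    (a : ι → ℝ) (i₀ : ι) (ha : ∀ i, 0 ≤ a i ∧ a i ≤ a i₀) (hvar : ∑ i, a i ^ 2 = 1) (x : ℝ) :
    |P.real {ω | ∑ i, a i * X i ω ≤ x} - (gaussianReal 0 1).real (Set.Iic x)| ≤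
      (gaussianReal 0 1).real (Set.Ioo 0 (a i₀)) ∧
    |P.real {ω | ∑ i, a i * X i ω < x} - (gaussianReal 0 1).real (Set.Iic x)| ≤
      (gaussianReal 0 1).real (Set.Ioo 0 (a i₀)) :=
  H25K.berry_esseen P X hX hindep hplus hminus a i₀ ha hvar x

end Pool.Agent.Results.MP_e52bd2_pr.RandomSigns
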